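import Pool.Agent.Helper93.HZ.Spec3

/-!
# MP_64298a_al: SL, the sets `S_ε(v)` (6.1)
-/

set_option autoImplicit false

open MulAction Pointwise

namespace Pool.Agent.Helper93.HZ

variable {G : Type} [Group G] {D : Setup G} {K : Cx G}

theorem sl_fld_back {U : Type} {T : SimpleGraph U} {N : U → U} (hN : IsField T N) {u w : U}
    (h : T.Adj u w) (h1 : N u ≠ w) : N w = u := by
  by_contra h2
  exact h1 ((hN.2 u w h).mpr h2)

theorem sl_fld_ne {U : Type} {T : SimpleGraph U} {N : U → U} (hN : IsField T N) {u w : U}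
    (h : T.Adj u w) (h1 : N u = w) : N w ≠ u := (hN.2 u w h).mp h1

theorem sl_adjN (P : Pts D K) {v : K.V} (hN : ∀ u, P.N v u ≠ u) (u : D.U) :
    D.T.Adj u (P.N v u) := by
  rcases (P.fN v).1 u with h | h
  · exact absurd h (hN u)
  · exact h

theorem sl_adjM (P : Pts D K) {v : K.V} (hM : ∀ u, P.M v u ≠ u) (u : D.U) :
    D.T.Adj u (P.M v u) := by
  rcases (P.fM v).1 u with h | h
  · exact absurd h (hM u)
  · exact h

theorem sl_ax_adj (P : Pts D K) {v : K.V} {u w : D.U} (h : Ax P v u w) : D.T.Adj u w := by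
  rcases (P.fN v).1 u with h1 | h1
  · exact absurd h1 h.2.2
  · rw [h.1] at h1; exact h1

theorem sl_ax_next (P : Pts D K) {v : K.V} (hN : ∀ u, P.N v u ≠ u) {u w : D.U}
    (h : Ax P v u w) : Ax P v w (P.N v w) := by
  refine ⟨rfl, ?_, hN w⟩
  have h1 : P.N v w ≠ u := sl_fld_ne (P.fN v) (sl_ax_adj P h) h.1
  apply sl_fld_back (P.fM v) (sl_adjN P hN w)
  rw [h.2.1]
  exact h1.symm

theorem sl_ax_ne (P : Pts D K) {v : K.V} {u w : D.U} (h : Ax P v u w) : P.N v u ≠ P.M v u := by
  rw [h.1]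
  exact (sl_fld_ne (P.fM v) (sl_ax_adj P h).symm h.2.1).symm

theorem sl_ax_prev (P : Pts D K) {v : K.V} (hN : ∀ u, P.N v u ≠ u) (hM : ∀ u, P.M v u ≠ u)
    {u w : D.U} (h : Ax P v u w) : Ax P v (P.M v u) u := by
  refine ⟨?_, rfl, hN _⟩
  exact sl_fld_back (P.fN v) (sl_adjM P hM u) (sl_ax_ne P h)

theorem sl_ax_iter (P : Pts D K) {v : K.V} (hN : ∀ u, P.N v u ≠ u) {u w : D.U}
    (h : Ax P v u w) (k : ℕ) : Ax P v ((P.N v)^[k] u) ((P.N v)^[k + 1] u) := by
  induction k with
  | zero =>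
    have : (P.N v)^[0 + 1] u = w := h.1
    rw [this]
    exact h
  | succ k ih =>
    have := sl_ax_next P hN ih
    rw [← Function.iterate_succ_apply' (P.N v) (k + 1) u] at this
    exact this

theorem sl_ax_iterM (P : Pts D K) {v : K.V} (hN : ∀ u, P.N v u ≠ u) (hM : ∀ u, P.M v u ≠ u)
    {u w : D.U} (h : Ax P v u w) (k : ℕ) : Ax P v ((P.M v)^[k + 1] u) ((P.M v)^[k] u) := by
  induction k with
  | zero => exact sl_ax_prev P hN hM h
  | succ k ih =>
    have := sl_ax_prev P hN hM ih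
    rw [← Function.iterate_succ_apply' (P.M v) (k + 1) u] at this
    exact this

/-- a field pointing backwards on the axis does so further ahead -/
theorem sl_fwd (P : Pts D K) {v : K.V} (hN : ∀ u, P.N v u ≠ u) {F : D.U → D.U}
    (hF : IsField D.T F) {u w : D.U} (h : Ax P v u w) (h1 : F w = u) : F (P.N v w) = w := by
  have h2 : P.N v w ≠ u := sl_fld_ne (P.fN v) (sl_ax_adj P h) h.1
  apply sl_fld_back hF (sl_adjN P hN w)
  rw [h1]
  exact h2.symm

theorem sl_fwd_iter (P : Pts D K) {v : K.V} (hN : ∀ u, P.N v u ≠ u) {F : D.U → D.U}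
    (hF : IsField D.T F) {u w : D.U} (h : Ax P v u w) (j : ℕ)
    (h1 : F ((P.N v)^[j] w) = (P.N v)^[j] u) (k : ℕ) (hk : j ≤ k) :
    F ((P.N v)^[k] w) = (P.N v)^[k] u := by
  induction k, hk using Nat.le_induction with
  | base => exact h1
  | succ k _ ih =>
    have hw : (P.N v)^[k + 1] u = (P.N v)^[k] w := by
      rw [Function.iterate_succ_apply, h.1]
    have hax := sl_ax_iter P hN h k
    rw [hw] at hax
    have := sl_fwd P hN hF hax ih
    rw [Function.iterate_succ_apply', this, hw]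

/-- a field different from `N v` points backwards far ahead -/
theorem sl_ahead (hA : ST_TFA) (P : Pts D K) {v : K.V} (hN : ∀ u, P.N v u ≠ u) {F : D.U → D.U}
    (hF : IsField D.T F) (hne : P.N v ≠ F) {u w : D.U} (h : Ax P v u w) :
    ∃ j : ℕ, ∀ k ≥ j, F ((P.N v)^[k] w) = (P.N v)^[k] u := by
  have h1 : ¬ ∀ k : ℕ, F ((P.N v)^[k] u) = P.N v ((P.N v)^[k] u) := by
    intro h2
    exact hne ((hA D.U D.T D.tree).2 _ _ (P.fN v) hF ⟨u, h2⟩)
  push Not at h1
  obtain ⟨j, hj⟩ := h1
  refine ⟨j, fun k hk => sl_fwd_iter P hN hF h j ?_ k hk⟩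
  have hw : (P.N v)^[j] w = P.N v ((P.N v)^[j] u) := by
    rw [← Function.iterate_succ_apply' (P.N v) j u, Function.iterate_succ_apply, h.1]
  rw [hw]
  exact sl_fld_back hF (sl_adjN P hN _) hj

/-- a power of the generator moves along the axis -/
theorem sl_zpow (P : Pts D K) {v : K.V} (hN : ∀ u, P.N v u ≠ u) {z : G} {k0 : ℕ}
    (hz : ∀ u, P.N v u ≠ P.M v u → z • u = (P.N v)^[k0] u) {u w : D.U} (h : Ax P v u w) (n : ℕ) :
    z ^ n • u = (P.N v)^[k0 * n] u := by
  induction n with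
  | zero => simp
  | succ n ih =>
    rw [pow_succ', mul_smul, ih, hz _ (sl_ax_ne P (sl_ax_iter P hN h (k0 * n))),
      ← Function.iterate_add_apply]
    congr 1
    ring

/-- infinite orbit -/
theorem sl_inj {x y : K.V} (hf : Fr K x y) {z : G} (hz : z • x = x) (hinf : ¬ IsOfFinOrder z)
    (n : ℕ) (hn : 0 < n) (i j : ℕ) (h : (z ^ (n * i))⁻¹ • y = (z ^ (n * j))⁻¹ • y) : i = j := by
  have hzn : ∀ m : ℕ, z ^ m • x = x := by
    intro m
    induction m with
    | zero => simp
    | succ m ih => rw [pow_succ', mul_smul, ih, hz]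
  have hzi : ∀ m : ℕ, (z ^ m)⁻¹ • x = x := fun m => by
    rw [inv_smul_eq_iff, hzn]
  have h1 : (z ^ (n * i) * (z ^ (n * j))⁻¹) • y = y := by
    rw [mul_smul, ← h, smul_inv_smul]
  have h2 : (z ^ (n * i) * (z ^ (n * j))⁻¹) • x = x := by
    rw [mul_smul, hzi, hzn]
  have h3 := hf _ h2 h1
  have h4 : z ^ (n * i) = z ^ (n * j) := by
    rw [mul_inv_eq_one] at h3
    exact h3
  have h5 := (injective_pow_iff_not_isOfFinOrder.mpr hinf) h4
  exact Nat.eq_of_mul_eq_mul_left hn h5

theorem sl_zfix {x : K.V} {z : G} (hz : stabilizer G x = Subgroup.zpowers z) : z • x = x := by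
  have : z ∈ stabilizer G x := by rw [hz]; exact Subgroup.mem_zpowers z
  exact this

/-- structure of a non-free edge at a hyperbolic vertex -/
theorem sl_nonfree (hD : ST_TFD) (P : Pts D K) (hnd : ND D K P) {v y : K.V} {z : G}
    (hv : ¬ EllV D K v) (hadj : K.adj v y) (hfr : ¬ Fr K v y)
    (hz : stabilizer G v = Subgroup.zpowers z) :
    ¬ EllV D K y ∧ P.N y = P.M v ∧ ∃ n : ℕ, 0 < n ∧ z ^ n • y = y := by
  have hzv := sl_zfix hz
  have hzE : ¬ Ell D z := by
    rintro ⟨u, hu⟩
    apply hv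
    refine ⟨u, fun g hg => ?_⟩
    have : g ∈ Subgroup.zpowers z := by rw [← hz]; exact hg
    obtain ⟨n, rfl⟩ := this
    have h1 : z ∈ stabilizer G u := hu
    exact (stabilizer G u).zpow_mem h1 n
  have hpow : ∃ n : ℕ, 0 < n ∧ z ^ n • y = y := by
    unfold Fr at hfr
    push Not at hfr
    obtain ⟨g, h1, h2, h3⟩ := hfr
    have : g ∈ Subgroup.zpowers z := by rw [← hz]; exact h1
    obtain ⟨n, hn⟩ := this
    have hn' : z ^ n = g := hn
    have hmem : z ^ n ∈ stabilizer G y := by rw [hn']; exact h2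
    have hn0 : n ≠ 0 := by
      rintro rfl
      apply h3
      rw [← hn', zpow_zero]
    refine ⟨n.natAbs, Int.natAbs_pos.mpr hn0, ?_⟩
    have : z ^ n.natAbs ∈ stabilizer G y := by
      rcases Int.natAbs_eq n with h4 | h4
      · rw [← zpow_natCast, ← h4]
        exact hmem
      · have h5 : z ^ n.natAbs = (z ^ n)⁻¹ := by
          rw [← zpow_natCast, ← zpow_neg]
          congr 1
          omega
        rw [h5]
        exact (stabilizer G y).inv_mem hmem
    exact this
  obtain ⟨n, hn, hny⟩ := hpow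
  obtain ⟨hd1, hd2⟩ := hD G D z
  have hznE : ¬ Ell D (z ^ n) := fun h => hzE (hd1 n hn h)
  have hy : ¬ EllV D K y := by
    rintro ⟨u, hu⟩
    exact hznE ⟨u, hu _ hny⟩
  refine ⟨hy, ?_, n, hn, hny⟩
  obtain ⟨N0, M0, k, -, -, -, -, -, -, -, -, -, huniq⟩ := hd2 hzE
  obtain ⟨hNv, hMv, -, ux, hux⟩ := P.hyp v hv
  have hznv : z ^ n • v = v := by
    have : z ∈ stabilizer G v := hzv
    exact (stabilizer G v).pow_mem this n
  have a1 : P.N v = N0 ∨ P.N v = M0 := by
    refine huniq n hn _ (P.fN v) (fun u => ?_)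
    have := P.eN (z ^ n) v u
    rwa [hznv] at this
  have a2 : P.M v = N0 ∨ P.M v = M0 := by
    refine huniq n hn _ (P.fM v) (fun u => ?_)
    have := P.eM (z ^ n) v u
    rwa [hznv] at this
  have a3 : P.N y = N0 ∨ P.N y = M0 := by
    refine huniq n hn _ (P.fN y) (fun u => ?_)
    have := P.eN (z ^ n) y u
    rwa [hny] at this
  have hne1 : P.N v ≠ P.M v := fun h => hux (congrFun h ux)
  have hne2 : P.N v ≠ P.N y := by
    intro h
    obtain ⟨u, hu⟩ := hnd v y hadj h
    exact hNv u hu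
  rcases a1 with a1 | a1 <;> rcases a2 with a2 | a2 <;> rcases a3 with a3 | a3
  · exact absurd (a1.trans a2.symm) hne1
  · exact absurd (a1.trans a2.symm) hne1
  · exact absurd (a1.trans a3.symm) hne2
  · rw [a3, a2]
  · rw [a3, a2]
  · exact absurd (a1.trans a3.symm) hne2
  · exact absurd (a1.trans a2.symm) hne1
  · exact absurd (a1.trans a2.symm) hne1

/-- the relation defining `Sset` -/
def sl_R (P : Pts D K) (v : K.V) (u w : D.U) (p q : K.V) : Prop :=
  K.tri v p q ∧ P.N p w = u ∧ P.N q w = u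

theorem sl_mem (P : Pts D K) (v : K.V) (u w : D.U) (y : K.V) : y ∈ Sset P v u w ↔
    K.adj v y ∧ P.N y w = u ∧ {y' | Relation.ReflTransGen (sl_R P v u w) y y'}.Infinite :=
  Iff.rfl

/-- `z⁻¹` preserves the relation -/
theorem sl_R_zinv (P : Pts D K) {v : K.V} (hN : ∀ u, P.N v u ≠ u) {z : G} {k0 : ℕ}
    (hz : ∀ u, P.N v u ≠ P.M v u → z • u = (P.N v)^[k0] u) (hzv : z • v = v)
    {u w : D.U} (h : Ax P v u w) {p q : K.V} (hR : sl_R P v u w p q) :
    sl_R P v u w (z⁻¹ • p) (z⁻¹ • q) := by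
  have key : ∀ p : K.V, P.N p w = u → P.N (z⁻¹ • p) w = u := by
    intro p hp
    have h1 := P.eN z⁻¹ p (z • w)
    rw [inv_smul_smul] at h1
    have h2 : z • w = (P.N v)^[k0] w := hz w (sl_ax_ne P (sl_ax_next P hN h))
    have h3 : z • u = (P.N v)^[k0] u := hz u (sl_ax_ne P h)
    have h4 := sl_fwd_iter P hN (P.fN p) h 0 hp k0 (Nat.zero_le _)
    rw [h1, h2, h4, ← h3, inv_smul_smul]
  refine ⟨?_, key p hR.2.1, key q hR.2.2⟩
  have h1 := K.smul_tri z⁻¹ _ _ _ hR.1
  have h2 : z⁻¹ • v = v := by rw [inv_smul_eq_iff, hzv]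
  rwa [h2] at h1

theorem sl_equiv (P : Pts D K) (g : G) {v : K.V} {u w : D.U} {y : K.V}
    (h : y ∈ Sset P v u w) : g • y ∈ Sset P (g • v) (g • u) (g • w) := by
  rw [sl_mem] at h ⊢
  obtain ⟨h1, h2, h3⟩ := h
  refine ⟨K.smul_adj g _ _ h1, by rw [P.eN, h2], ?_⟩
  have hmap : ∀ y', Relation.ReflTransGen (sl_R P v u w) y y' →
      Relation.ReflTransGen (sl_R P (g • v) (g • u) (g • w)) (g • y) (g • y') := by
    intro y' hy'
    induction hy' with
    | refl => exact Relation.ReflTransGen.refl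
    | tail _ hbc ih =>
      refine ih.tail ⟨K.smul_tri g _ _ _ hbc.1, ?_, ?_⟩
      · rw [P.eN, hbc.2.1]
      · rw [P.eN, hbc.2.2]
  have h4 := h3.image (f := fun y' : K.V => g • y') (fun a _ b _ hab => smul_left_cancel g hab)
  refine h4.mono ?_
  rintro _ ⟨y', hy', rfl⟩
  exact hmap y' hy'

theorem st_SL (hA : ST_TFA) (hD : ST_TFD) (hFT : ST_FT) : ST_SL := by
  intro G _ D K P hred hrmin hnd v u w hv hax
  obtain ⟨hNv, hMv, ⟨z, k0, hstab, hinf, hk0, hz⟩, -⟩ := P.hyp v hv
  have hzv := sl_zfix hstab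
  have hR2 := hred.R2 v (Or.inr hv)
  -- the fields of the neighbours of `v` are different from that of `v`
  have hneN : ∀ p, K.adj v p → P.N v ≠ P.N p := by
    intro p hp h
    obtain ⟨u, hu⟩ := hnd v p hp h
    exact hNv u hu
  have hzinv : z⁻¹ • v = v := by rw [inv_smul_eq_iff, hzv]
  refine ⟨?_, ?_, ?_, ?_, ?_, ?_⟩
  · -- monotonicity
    intro y hy
    rw [sl_mem] at hy ⊢
    obtain ⟨h1, h2, h3⟩ := hy
    refine ⟨h1, sl_fwd P hNv (P.fN y) hax h2, ?_⟩
    refine h3.mono ?_
    intro y' hy'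
    exact Relation.ReflTransGen.mono (fun p q hpq => ⟨hpq.1, sl_fwd P hNv (P.fN p) hax hpq.2.1,
      sl_fwd P hNv (P.fN q) hax hpq.2.2⟩) _ _ hy'
  · -- non-free edges
    intro y hadj hfr
    obtain ⟨hy, hNy, n, hn, hny⟩ := sl_nonfree hD P hnd hv hadj hfr hstab
    rw [sl_mem]
    refine ⟨hadj, by rw [hNy]; exact hax.2.1, ?_⟩
    obtain ⟨y', htri⟩ := hR2.2 y hadj
    have hadj' : K.adj v y' := K.symm _ _ (K.tri_adj _ _ _ (K.tri_rot _ _ _ (K.tri_rot _ _ _ htri)))
    have hadjyy : K.adj y y' := K.tri_adj _ _ _ (K.tri_rot _ _ _ htri)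
    have hfr' : Fr K v y' := by
      by_contra hfr'
      obtain ⟨-, hNy', -⟩ := sl_nonfree hD P hnd hv hadj' hfr' hstab
      obtain ⟨x, hx⟩ := hnd y y' hadjyy (hNy.trans hNy'.symm)
      rw [hNy] at hx
      exact hMv x hx
    obtain ⟨j, hj⟩ := sl_ahead hA P hNv (P.fN y') (hneN y' hadj') hax
    -- the translates of `y'`
    have hmem : ∀ m : ℕ, (z ^ (n * (m + j)))⁻¹ • y' ∈
        {y'' | Relation.ReflTransGen (sl_R P v u w) y y''} := by
      intro m
      apply Relation.ReflTransGen.single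
      have hfixv : (z ^ (n * (m + j)))⁻¹ • v = v := by
        have h1 : z ∈ stabilizer G v := hzv
        exact (stabilizer G v).inv_mem ((stabilizer G v).pow_mem h1 _)
      have hfixy : (z ^ (n * (m + j)))⁻¹ • y = y := by
        have h1 : z ^ n ∈ stabilizer G y := hny
        have h2 := (stabilizer G y).inv_mem ((stabilizer G y).pow_mem h1 (m + j))
        rw [← pow_mul] at h2
        exact h2
      refine ⟨?_, by rw [hNy]; exact hax.2.1, ?_⟩
      · have h1 := K.smul_tri (z ^ (n * (m + j)))⁻¹ _ _ _ htri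
        rwa [hfixv, hfixy] at h1
      · have h1 := P.eN (z ^ (n * (m + j)))⁻¹ y' (z ^ (n * (m + j)) • w)
        rw [inv_smul_smul] at h1
        have h2 := sl_zpow P hNv hz (sl_ax_next P hNv hax) (n * (m + j))
        have h3 := sl_zpow P hNv hz hax (n * (m + j))
        have h4 := hj (k0 * (n * (m + j))) (by
          have : m + j ≤ n * (m + j) := Nat.le_mul_of_pos_left _ hn
          have h5 : n * (m + j) ≤ k0 * (n * (m + j)) := Nat.le_mul_of_pos_left _ hk0
          omega)
        rw [h1, h2, h4, ← h3, inv_smul_smul]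
    have hinj : Function.Injective (fun m : ℕ => (z ^ (n * (m + j)))⁻¹ • y') := by
      intro m m' h
      have := sl_inj hfr' hzv hinf n hn (m + j) (m' + j) h
      omega
    exact (Set.infinite_range_of_injective hinj).mono (by rintro _ ⟨m, rfl⟩; exact hmem m)
  · -- free edges, far ahead
    intro y hadj hfr
    have hadjz : K.adj v (z⁻¹ • y) := by
      have := K.smul_adj z⁻¹ _ _ hadj
      rwa [hzinv] at this
    have hpath := hR2.1 y (z⁻¹ • y) hadj hadjz
    -- ahead for one neighbour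
    have hahead : ∀ p, K.adj v p → ∃ j : ℕ, ∀ k ≥ j, P.N p ((P.N v)^[k + 1] u) = (P.N v)^[k] u := by
      intro p hp
      obtain ⟨j, hj⟩ := sl_ahead hA P hNv (P.fN p) (hneN p hp) hax
      refine ⟨j, fun k hk => ?_⟩
      have := hj k hk
      rw [Function.iterate_succ_apply, hax.1]
      exact this
    have hex : ∀ x, Relation.ReflTransGen (fun p q => K.tri v p q) y x →
        K.adj v x ∧ ∃ j : ℕ, ∀ k ≥ j, Relation.ReflTransGen
          (sl_R P v ((P.N v)^[k] u) ((P.N v)^[k + 1] u)) y x := by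
      intro x hx
      induction hx with
      | refl => exact ⟨hadj, 0, fun k _ => Relation.ReflTransGen.refl⟩
      | @tail b c _ hbc ih =>
        obtain ⟨hb, j, hj⟩ := ih
        have hc : K.adj v c := K.symm _ _ (K.tri_adj _ _ _ (K.tri_rot _ _ _ (K.tri_rot _ _ _ hbc)))
        obtain ⟨j1, hj1⟩ := hahead b hb
        obtain ⟨j2, hj2⟩ := hahead c hc
        refine ⟨hc, max j (max j1 j2), fun k hk => ?_⟩
        have hk1 : j ≤ k := le_trans (le_max_left _ _) hk
        have hk2 : j1 ≤ k := le_trans (le_trans (le_max_left _ _) (le_max_right _ _)) hk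
        have hk3 : j2 ≤ k := le_trans (le_trans (le_max_right _ _) (le_max_right _ _)) hk
        exact (hj k hk1).tail ⟨hbc, hj1 k hk2, hj2 k hk3⟩
    obtain ⟨-, j, hj⟩ := hex _ hpath
    obtain ⟨j', hj'⟩ := hahead y hadj
    refine ⟨max j j', fun k hk => ?_⟩
    have hk1 : j ≤ k := le_trans (le_max_left _ _) hk
    have hk2 : j' ≤ k := le_trans (le_max_right _ _) hk
    rw [sl_mem]
    refine ⟨hadj, hj' k hk2, ?_⟩
    have haxk := sl_ax_iter P hNv hax k
    have hstep := hj k hk1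
    have hmap : ∀ a b, Relation.ReflTransGen (sl_R P v ((P.N v)^[k] u) ((P.N v)^[k + 1] u)) a b →
        Relation.ReflTransGen (sl_R P v ((P.N v)^[k] u) ((P.N v)^[k + 1] u)) (z⁻¹ • a) (z⁻¹ • b) := by
      intro a b hab
      induction hab with
      | refl => exact Relation.ReflTransGen.refl
      | tail _ hbc ih => exact ih.tail (sl_R_zinv P hNv hz hzv haxk hbc)
    have hall : ∀ m : ℕ, (z ^ (1 * m))⁻¹ • y ∈
        {y'' | Relation.ReflTransGen (sl_R P v ((P.N v)^[k] u) ((P.N v)^[k + 1] u)) y y''} := by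
      intro m
      induction m with
      | zero =>
        have : (z ^ (1 * 0))⁻¹ • y = y := by simp
        rw [this]
        exact Relation.ReflTransGen.refl
      | succ m ih =>
        have h1 := hmap _ _ ih
        have h2 : z⁻¹ • (z ^ (1 * m))⁻¹ • y = (z ^ (1 * (m + 1)))⁻¹ • y := by
          rw [smul_smul]
          congr 1
          rw [one_mul, one_mul, ← mul_inv_rev, ← pow_succ]
        rw [h2] at h1
        exact hstep.trans h1
    have hinj : Function.Injective (fun m : ℕ => (z ^ (1 * m))⁻¹ • y) := by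
      intro m m' h
      exact sl_inj hfr hzv hinf 1 one_pos m m' h
    exact (Set.infinite_range_of_injective hinj).mono (by rintro _ ⟨m, rfl⟩; exact hall m)
  · -- free edges, far behind
    intro y hadj hfr
    have hfin : Finite ↥(stabilizer G v ⊓ stabilizer G y) := by
      have : stabilizer G v ⊓ stabilizer G y = ⊥ := by
        rw [eq_bot_iff]
        rintro g ⟨h1, h2⟩
        exact hfr g h1 h2
      rw [this]
      infer_instance
    have hT := hFT G K v y hadj hfin
    -- for every triangle there is a place from which on not both are in the graph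
    have hq : ∀ q ∈ {z | K.tri v y z}, ∃ j : ℕ, ∀ k ≥ j,
        ¬ (P.N y ((P.M v)^[k] u) = (P.M v)^[k + 1] u ∧ P.N q ((P.M v)^[k] u) = (P.M v)^[k + 1] u) := by
      intro q hq
      have hadjyq : K.adj y q := K.tri_adj _ _ _ (K.tri_rot _ _ _ hq)
      -- downward propagation
      have hdown : ∀ F : D.U → D.U, IsField D.T F → ∀ k, F ((P.M v)^[k + 1] u) = (P.M v)^[k + 2] u →
          F ((P.M v)^[k] u) = (P.M v)^[k + 1] u := by
        intro F hF k hk
        have h1 := sl_ax_iterM P hNv hMv hax (k + 1)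
        have h2 := sl_fwd P hNv hF h1 hk
        have h3 : P.N v ((P.M v)^[k + 1] u) = (P.M v)^[k] u := (sl_ax_iterM P hNv hMv hax k).1
        rw [h3] at h2
        exact h2
      have hdown2 : ∀ F : D.U → D.U, IsField D.T F → ∀ k j, F ((P.M v)^[k + j] u) = (P.M v)^[k + j + 1] u →
          F ((P.M v)^[k] u) = (P.M v)^[k + 1] u := by
        intro F hF k j
        induction j with
        | zero => intro h; exact h
        | succ j ih => intro h; exact ih (hdown F hF (k + j) h)
      by_contra hcon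
      push Not at hcon
      have hall : ∀ F, (F = P.N y ∨ F = P.N q) → ∀ k, F ((P.M v)^[k] u) = (P.M v)^[k + 1] u := by
        intro F hF k
        obtain ⟨k', hk', h1, h2⟩ := hcon k
        obtain ⟨j, rfl⟩ := Nat.exists_eq_add_of_le hk'
        rcases hF with rfl | rfl
        · exact hdown2 _ (P.fN y) k j h1
        · exact hdown2 _ (P.fN q) k j h2
      have e1 : P.M v = P.N y := by
        refine (hA D.U D.T D.tree).2 _ _ (P.fM v) (P.fN y) ⟨u, fun k => ?_⟩
        rw [hall _ (Or.inl rfl) k, Function.iterate_succ_apply']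
      have e2 : P.M v = P.N q := by
        refine (hA D.U D.T D.tree).2 _ _ (P.fM v) (P.fN q) ⟨u, fun k => ?_⟩
        rw [hall _ (Or.inr rfl) k, Function.iterate_succ_apply']
      obtain ⟨x, hx⟩ := hnd y q hadjyq (e1.symm.trans e2)
      rw [← e1] at hx
      exact hMv x hx
    choose! j hj using hq
    obtain ⟨B, hB⟩ := (hT.image j).bddAbove
    refine ⟨B, fun k hk hmem => ?_⟩
    rw [sl_mem] at hmem
    obtain ⟨-, -, h3⟩ := hmem
    apply h3
    refine (Set.finite_singleton y).subset ?_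
    intro y' hy'
    have hy'' : Relation.ReflTransGen (sl_R P v ((P.M v)^[k + 1] u) ((P.M v)^[k] u)) y y' := hy'
    rcases Relation.ReflTransGen.cases_head hy'' with h4 | ⟨q, h4, -⟩
    · exact h4.symm
    · exfalso
      have hqT : q ∈ {z | K.tri v y z} := h4.1
      have hjk : j q ≤ k := le_trans (hB ⟨q, hqT, rfl⟩) hk
      exact hj q hqT k hjk ⟨h4.2.1, h4.2.2⟩
  · -- triangles
    intro y x hy htri
    constructor
    · intro hx
      exact hx.2.1
    · intro hx
      rw [sl_mem] at hy ⊢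
      obtain ⟨h1, h2, h3⟩ := hy
      have hadj' : K.adj v x := K.symm _ _ (K.tri_adj _ _ _ (K.tri_rot _ _ _ (K.tri_rot _ _ _ htri)))
      refine ⟨hadj', hx, h3.mono ?_⟩
      intro y' hy'
      have htri' : K.tri v x y := K.tri_rot _ _ _ (K.tri_rot _ _ _ (K.tri_swap _ _ _ (K.tri_rot _ _ _ htri)))
      exact Relation.ReflTransGen.head (show sl_R P v u w x y from ⟨htri', hx, h2⟩) hy'
  · -- equivariance
    intro g y
    constructor
    · intro h
      have := sl_equiv P g⁻¹ h
      simpa using this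
    · exact sl_equiv P g

end Pool.Agent.Helper93.HZ
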