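import Pool.Agent.Helper27.HZ.SL

/-!
# MP_64298a_al: THR, good thresholds (6.2)
-/

set_option autoImplicit false

open MulAction Pointwise

namespace Pool.Agent.Helper93.HZ

variable {G : Type} [Group G] {D : Setup G} {K : Cx G}

/-- the properties of a good threshold -/
def thr_B (P : Pts D K) (v y : K.V) (x : D.U) : Prop :=
  (∀ z, K.tri v y z → P.N y x = P.N z x ∧ P.N y x ≠ x) ∧
  (∀ k : ℕ, y ∈ Sset P v ((P.N v)^[k] x) ((P.N v)^[k + 1] x)) ∧
  OnI (P.N v) (P.N y) x ∧ P.N v x ≠ P.M v x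

theorem thr_B_smul (P : Pts D K) (g : G) {v y : K.V} {x : D.U} (h : thr_B P v y x) :
    thr_B P (g • v) (g • y) (g • x) := by
  obtain ⟨h1, h2, h3, h4⟩ := h
  refine ⟨?_, ?_, ?_, ?_⟩
  · intro z hz
    obtain ⟨z', rfl⟩ : ∃ z', z = g • z' := ⟨g⁻¹ • z, (smul_inv_smul g z).symm⟩
    have := h1 z' ((tri_smul_iff g).1 hz)
    rw [P.eN, P.eN]
    exact ⟨by rw [this.1], fun h => this.2 (smul_left_cancel g h)⟩
  · intro k
    have := sl_equiv P g (h2 k)
    rw [← P.N_iter, ← P.N_iter] at this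
    exact this
  · intro h
    rw [P.eN, P.eN] at h
    have := h3 (smul_left_cancel g h)
    rw [P.eN, this]
  · rw [P.eN, P.eM]
    exact fun h => h4 (smul_left_cancel g h)

theorem thr_B_iff (P : Pts D K) (g : G) {v y : K.V} {x : D.U} :
    thr_B P (g • v) (g • y) (g • x) ↔ thr_B P v y x := by
  constructor
  · intro h
    have := thr_B_smul P g⁻¹ h
    simpa using this
  · exact thr_B_smul P g

/-- existence of a good threshold ahead of a given one -/
theorem thr_exists (hA : ST_TFA) (hFT : ST_FT) (hSL : ST_SL) (P : Pts D K) (hred : Red D K)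
    (hrmin : RMin K) (hnd : ND D K P) {v y : K.V} (hv : ¬ EllV D K v) (hadj : K.adj v y)
    (hfr : Fr K v y) {q : D.U} (hq : P.N v q ≠ P.M v q) :
    ∃ k : ℕ, thr_B P v y ((P.N v)^[k] q) := by
  obtain ⟨hNv, hMv, -, -⟩ := P.hyp v hv
  have hneN : ∀ p, K.adj v p → P.N v ≠ P.N p := by
    intro p hp h
    obtain ⟨u, hu⟩ := hnd v p hp h
    exact hNv u hu
  have hax : Ax P v q (P.N v q) := by
    refine ⟨rfl, ?_, hNv q⟩
    exact sl_fld_back (P.fM v) (sl_adjN P hNv q) hq.symm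
  obtain ⟨-, -, hS3, -⟩ := hSL G D K P hred hrmin hnd v q (P.N v q) hv hax
  obtain ⟨k1, hk1⟩ := hS3 y hadj hfr
  have hfin : Finite ↥(stabilizer G v ⊓ stabilizer G y) := by
    have : stabilizer G v ⊓ stabilizer G y = ⊥ := by
      rw [eq_bot_iff]
      rintro g ⟨h1, h2⟩
      exact hfr g h1 h2
    rw [this]
    infer_instance
  have hT := hFT G K v y hadj hfin
  -- ahead for one neighbour
  have hahead : ∀ p, K.adj v p → ∃ j : ℕ, ∀ k ≥ j, P.N p ((P.N v)^[k + 1] q) = (P.N v)^[k] q := by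
    intro p hp
    obtain ⟨j, hj⟩ := sl_ahead hA P hNv (P.fN p) (hneN p hp) hax
    refine ⟨j, fun k hk => ?_⟩
    have := hj k hk
    rw [Function.iterate_succ_apply]
    exact this
  obtain ⟨k2, hk2⟩ := hahead y hadj
  have hz : ∀ z ∈ {z | K.tri v y z}, ∃ j : ℕ, ∀ k ≥ j,
      P.N z ((P.N v)^[k + 1] q) = (P.N v)^[k] q := by
    intro z hz
    exact hahead z (K.symm _ _ (K.tri_adj _ _ _ (K.tri_rot _ _ _ (K.tri_rot _ _ _ hz))))
  choose! j hj using hz
  obtain ⟨B, hB⟩ := (hT.image j).bddAbove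
  have haxk := sl_ax_iter P hNv hax
  refine ⟨max k1 (max k2 B) + 1, ?_, ?_, ?_, ?_⟩
  · intro z hz
    have h1 := hk2 (max k1 (max k2 B)) (le_trans (le_max_left _ _) (le_max_right _ _))
    have h2 := hj z hz (max k1 (max k2 B)) (le_trans (hB ⟨z, hz, rfl⟩)
      (le_trans (le_max_right _ _) (le_max_right _ _)))
    refine ⟨h1.trans h2.symm, ?_⟩
    rw [h1]
    exact (sl_ax_adj P (haxk _)).ne
  · intro k
    rw [← Function.iterate_add_apply, ← Function.iterate_add_apply]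
    have := hk1 (k + (max k1 (max k2 B) + 1)) (by
      have := le_max_left k1 (max k2 B)
      omega)
    have e : k + 1 + (max k1 (max k2 B) + 1) = k + (max k1 (max k2 B) + 1) + 1 := by ring
    rw [e]
    exact this
  · intro h
    exfalso
    have h1 := hk2 (max k1 (max k2 B)) (le_trans (le_max_left _ _) (le_max_right _ _))
    rw [h1] at h
    exact sl_fld_ne (P.fN v) (sl_ax_adj P (haxk (max k1 (max k2 B)))) (haxk _).1 h
  · exact sl_ax_ne P (haxk _)

theorem st_THR (hT0 : ST_THR0) (hA : ST_TFA) (hFT : ST_FT) (hSL : ST_SL) : ST_THR := by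
  intro G _ D K P hred hrmin hnd
  obtain ⟨Q0⟩ := hT0 G D K P
  let kk : K.V → K.V → ℕ := fun x y => sInf {k | thr_B P x y ((P.N x)^[k] (Q0.Q x y))}
  have hkk : ∀ x y, ¬ EllV D K x → K.adj x y → Fr K x y → P.N x ≠ P.N y →
      thr_B P x y ((P.N x)^[kk x y] (Q0.Q x y)) := by
    intro x y hx hadj hfr hne
    have h1 := Q0.hyp x y hadj hfr hx hne
    have h2 := thr_exists hA hFT hSL P hred hrmin hnd hx hadj hfr h1.2
    exact Nat.sInf_mem (s := {k | thr_B P x y ((P.N x)^[k] (Q0.Q x y))}) h2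
  refine ⟨⟨fun x y => (P.N x)^[kk x y] (Q0.Q x y), ?_, ?_, ?_⟩, ⟨?_, ?_⟩⟩
  · intro g x y hadj hfr
    have hQ := Q0.eq g x y hadj hfr
    have hk : kk (g • x) (g • y) = kk x y := by
      show sInf {k | thr_B P (g • x) (g • y) ((P.N (g • x))^[k] (Q0.Q (g • x) (g • y)))} =
        sInf {k | thr_B P x y ((P.N x)^[k] (Q0.Q x y))}
      congr 1
      ext k
      show thr_B P (g • x) (g • y) ((P.N (g • x))^[k] (Q0.Q (g • x) (g • y))) ↔
        thr_B P x y ((P.N x)^[k] (Q0.Q x y))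
      rw [hQ, P.N_iter, thr_B_iff]
    show (P.N (g • x))^[kk (g • x) (g • y)] (Q0.Q (g • x) (g • y)) =
      g • (P.N x)^[kk x y] (Q0.Q x y)
    rw [hk, hQ, P.N_iter]
  · intro x y hadj hx
    have h := Q0.ell x y hadj hx
    have h1 : ∀ k : ℕ, (P.N x)^[k] (Q0.Q x y) = Q0.Q x y := by
      intro k
      induction k with
      | zero => rfl
      | succ k ih => rw [Function.iterate_succ_apply, h, ih]
    show P.N x ((P.N x)^[kk x y] (Q0.Q x y)) = (P.N x)^[kk x y] (Q0.Q x y)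
    rw [h1, h]
  · intro x y hadj hfr hx hne
    have h := hkk x y hx hadj hfr hne
    exact ⟨h.2.2.1, h.2.2.2⟩
  · intro v y z hv htri hfr hne
    have h := hkk v y hv (K.tri_adj _ _ _ htri) hfr hne
    exact h.1 z htri
  · intro v y k hv hadj hfr hne
    have h := hkk v y hv hadj hfr hne
    exact h.2.1 k

end Pool.Agent.Helper93.HZ
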